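import Pool.Agent.Y522.FA.Stm

/-! # Project FA (helper522): job FA-Area -/

set_option autoImplicit false

open Set Filter Topology Metric Function MeasureTheory
open scoped Real NNReal RealInnerProductSpace

noncomputable section

namespace Pool.Agent.Y44.FA

open Pool.Agent.Y522.FA

/-- distance to the boundary point `s`, extended to the surface -/
def fs {M : Type} [MetricSpace M] (b : Circ → M) (s : Circ) (x : M) : ℝ :=
  ⨅ t : Circ, (dist s t + dist x (b t))

theorem fs_bdd {M : Type} [MetricSpace M] (b : Circ → M) (s : Circ) (x : M) :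
    BddBelow (range fun t : Circ => dist s t + dist x (b t)) :=
  ⟨0, by rintro _ ⟨t, rfl⟩; positivity⟩

theorem fs_lip {M : Type} [MetricSpace M] (b : Circ → M) (s : Circ) : LipschitzWith 1 (fs b s) := by
  apply LipschitzWith.of_le_add
  intro x y
  rw [← sub_le_iff_le_add]
  apply le_ciInf
  intro t
  have h1 : fs b s x ≤ dist s t + dist x (b t) := ciInf_le (fs_bdd b s x) t
  have h2 : dist x (b t) ≤ dist x y + dist y (b t) := dist_triangle _ _ _
  linarith

theorem fs_b {M : Type} [MetricSpace M] (b : Circ → M) (hb : ∀ s t, dist s t ≤ dist (b s) (b t))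
    (s u : Circ) : fs b s (b u) = dist s u := by
  apply le_antisymm
  · have h1 : fs b s (b u) ≤ dist s u + dist (b u) (b u) := ciInf_le (fs_bdd b s (b u)) u
    rwa [dist_self, add_zero] at h1
  · apply le_ciInf
    intro t
    have h1 := hb u t
    have h2 : dist s u ≤ dist s t + dist t u := dist_triangle _ _ _
    rw [dist_comm t u] at h2
    linarith

theorem det_two (A : E2 →L[ℝ] E2) :
    A.det = (A (bv 0)) 0 * (A (bv 1)) 1 - (A (bv 1)) 0 * (A (bv 0)) 1 := by
  have h1 : A.det = LinearMap.det (A : E2 →ₗ[ℝ] E2) := rfl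
  rw [h1, ← LinearMap.det_toMatrix (EuclideanSpace.basisFun (Fin 2) ℝ).toBasis, Matrix.det_fin_two]
  simp only [LinearMap.toMatrix_apply, OrthonormalBasis.coe_toBasis, EuclideanSpace.basisFun_apply,
    OrthonormalBasis.coe_toBasis_repr_apply, EuclideanSpace.basisFun_repr]
  rfl

theorem dualvec (A : E2 →L[ℝ] E2) (hA : 0 < A.det) (P : E2 →L[ℝ] ℝ) (hP : ∀ v, |P v| ≤ ‖A v‖) :
    ∃ p : E2, ‖p‖ ≤ 1 ∧ ∀ v, P v = p 0 * (A v) 0 + p 1 * (A v) 1 := by
  have hdet : LinearMap.det (A : E2 →ₗ[ℝ] E2) ≠ 0 := ne_of_gt hA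
  set B : E2 ≃ₗ[ℝ] E2 := LinearMap.equivOfDetNeZero (A : E2 →ₗ[ℝ] E2) hdet with hB
  have hBA : ∀ v, B v = A v := fun v => rfl
  set Q : E2 →L[ℝ] ℝ := LinearMap.toContinuousLinearMap ((P : E2 →ₗ[ℝ] ℝ).comp (B.symm : E2 →ₗ[ℝ] E2)) with hQ
  have hQv : ∀ w, Q w = P (B.symm w) := fun w => rfl
  have hQn : ‖Q‖ ≤ 1 := by
    apply ContinuousLinearMap.opNorm_le_bound _ zero_le_one
    intro w
    rw [hQv, Real.norm_eq_abs, one_mul]
    refine le_trans (hP _) ?_
    rw [← hBA, LinearEquiv.apply_symm_apply]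
  refine ⟨(InnerProductSpace.toDual ℝ E2).symm Q, ?_, fun v => ?_⟩
  · rw [LinearIsometryEquiv.norm_map]
    exact hQn
  · have h1 : ⟪(InnerProductSpace.toDual ℝ E2).symm Q, A v⟫ = Q (A v) :=
      InnerProductSpace.toDual_symm_apply
    have h2 : Q (A v) = P v := by
      rw [hQv, ← hBA, LinearEquiv.symm_apply_apply]
    rw [← h2, ← h1, EuclideanSpace.inner_eq_star_dotProduct]
    simp [dotProduct, Fin.sum_univ_two, mul_comm]

theorem cr_eq (A : E2 →L[ℝ] E2) (P Q : E2 →L[ℝ] ℝ) (p q : E2)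
    (hP : ∀ v, P v = p 0 * (A v) 0 + p 1 * (A v) 1) (hQ : ∀ v, Q v = q 0 * (A v) 0 + q 1 * (A v) 1) :
    cr P Q = A.det * (p 0 * q 1 - p 1 * q 0) := by
  unfold cr
  rw [det_two, hP, hP, hQ, hQ]
  ring

theorem stArea (h1 : StStokes) (h2 : StJac) (h3 : StRad) (h4 : StLip) (h5 : StFin) (h6 : StComass)
    (h7 : StRiem) (h8 : StBt) : StArea := by
  intro M _ _ _ _ μ b S hbc hb
  have : IsFiniteMeasure μ := h5 M μ b S
  obtain ⟨ε, hε, hSt⟩ := h1 M μ b S hbc hb
  -- integrals
  have hint : ∀ s t : ℝ, ∫ x, S.jac (fs b (s : Circ)) (fs b (t : Circ)) x ∂μ = ε * Bt (t - s) := by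
    intro s t
    have hl : ∀ r : Circ, LipschitzWith 1 (fun u => fs b r (b u)) := by
      intro r
      have : (fun u => fs b r (b u)) = fun u => dist r u := by
        funext u; exact fs_b b hb r u
      rw [this]
      exact LipschitzWith.dist_right r
    rw [hSt _ _ 1 1 1 1 (fs_lip b _) (fs_lip b _) (hl _) (hl _), ← h8.2.2.2 s t]
    congr 2
    · funext u; exact fs_b b hb _ _
    · funext u; exact fs_b b hb _ _
  have hji : ∀ s t : Circ, Integrable (S.jac (fs b s) (fs b t)) μ := fun s t =>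
    (h2 M μ b S _ _ 1 1 (fs_lip b s) (fs_lip b t)).2
  -- the calibration
  have hcal : ∀ (N : ℕ) (s : Finset ℕ), (∀ n ∈ s, 0 < n ∧ 2 * n < N) →
      |∑ n ∈ s, 2 / (N : ℝ) ^ 2 * ∑ j ∈ Finset.range N, ∑ k ∈ Finset.range N,
        Real.sin (n * ((2 * π / N * k) - (2 * π / N * j))) * Bt ((2 * π / N * k) - (2 * π / N * j))| ≤
        μ.real univ := by
    intro N s hs
    set f : ℕ → M → ℝ := fun j => fs b ((2 * π / N * j : ℝ) : Circ) with hf
    have hae : ∀ᵐ x ∂μ, |∑ n ∈ s, 2 / (N : ℝ) ^ 2 * ∑ j ∈ Finset.range N, ∑ k ∈ Finset.range N,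
        Real.sin (n * ((2 * π / N * k) - (2 * π / N * j))) * S.jac (f j) (f k) x| ≤ 1 := by
      have hD : ∀ᵐ x ∂μ, ∀ j : ℕ, S.Dif (f j) x := by
        rw [ae_all_iff]
        intro j
        exact h3 M μ b S (f j) 1 (fs_lip b _)
      filter_upwards [hD] with x hx
      obtain ⟨i, hi⟩ := S.cover x
      have hdet : 0 < (S.A i (S.φ i x)).det := S.detA i _ (mem_image_of_mem _ hi)
      have hP : ∀ j, ∃ p : E2, ‖p‖ ≤ 1 ∧ ∀ v, S.dc i (f j) x v =
          p 0 * (S.A i (S.φ i x) v) 0 + p 1 * (S.A i (S.φ i x) v) 1 := by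
        intro j
        apply dualvec _ hdet
        intro v
        have := (h4 M μ b S (f j) 1 (fs_lip b _)).2 x (hx j) i hi v
        simpa using this
      choose p hp1 hp2 using hP
      have hjac : ∀ j k, S.jac (f j) (f k) x = p j 0 * p k 1 - p j 1 * p k 0 := by
        intro j k
        rw [(h2 M μ b S (f j) (f k) 1 1 (fs_lip b _) (fs_lip b _)).1 x (hx j) (hx k) i hi,
          cr_eq _ _ _ _ _ (hp2 j) (hp2 k)]
        field_simp
      simp only [hjac]
      exact h6 N p s hp1 hs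
    have hI := norm_integral_le_of_norm_le_const (μ := μ) (C := 1)
      (f := fun x => ∑ n ∈ s, 2 / (N : ℝ) ^ 2 * ∑ j ∈ Finset.range N, ∑ k ∈ Finset.range N,
        Real.sin (n * ((2 * π / N * k) - (2 * π / N * j))) * S.jac (f j) (f k) x) hae
    rw [one_mul] at hI
    have hjk : ∀ n j k : ℕ, Integrable (fun x => Real.sin (n * ((2 * π / N * k) - (2 * π / N * j))) *
        S.jac (f j) (f k) x) μ := fun n j k => (hji _ _).const_mul _
    have hIeq : ∫ x, ∑ n ∈ s, 2 / (N : ℝ) ^ 2 * ∑ j ∈ Finset.range N, ∑ k ∈ Finset.range N,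
        Real.sin (n * ((2 * π / N * k) - (2 * π / N * j))) * S.jac (f j) (f k) x ∂μ =
        ε * ∑ n ∈ s, 2 / (N : ℝ) ^ 2 * ∑ j ∈ Finset.range N, ∑ k ∈ Finset.range N,
        Real.sin (n * ((2 * π / N * k) - (2 * π / N * j))) * Bt ((2 * π / N * k) - (2 * π / N * j)) := by
      rw [integral_finsetSum _ (fun n _ => (integrable_finsetSum _ fun j _ =>
        integrable_finsetSum _ fun k _ => hjk n j k).const_mul _), Finset.mul_sum]
      apply Finset.sum_congr rfl
      intro n _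
      rw [integral_const_mul, integral_finsetSum _ (fun j _ =>
        integrable_finsetSum _ fun k _ => hjk n j k), mul_left_comm]
      congr 1
      rw [Finset.mul_sum]
      apply Finset.sum_congr rfl
      intro j _
      rw [integral_finsetSum _ (fun k _ => hjk n j k), Finset.mul_sum]
      apply Finset.sum_congr rfl
      intro k _
      rw [integral_const_mul, hint]
      ring
    rw [hIeq, norm_mul, Real.norm_eq_abs, hε, one_mul, Real.norm_eq_abs] at hI
    exact hI
  -- finite sums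
  have hfin : ∀ m : ℕ, ∑ k ∈ Finset.range m, 16 / π * (1 / (2 * (k : ℝ) + 1) ^ 3) ≤ μ.real univ := by
    intro m
    set s : Finset ℕ := (Finset.range m).image (fun k => 2 * k + 1) with hs
    have hodd : ∀ n ∈ s, Odd n := by
      intro n hn
      rw [hs, Finset.mem_image] at hn
      obtain ⟨k, _, rfl⟩ := hn
      exact ⟨k, rfl⟩
    have hsum : ∑ k ∈ Finset.range m, 16 / π * (1 / (2 * (k : ℝ) + 1) ^ 3) =
        ∑ n ∈ s, 16 / (π * (n : ℝ) ^ 3) := by
      rw [hs, Finset.sum_image (fun a _ c _ h => by omega)]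
      apply Finset.sum_congr rfl
      intro k _
      push_cast
      rw [div_mul_div_comm, mul_one]
    rw [hsum]
    have hlim : Tendsto (fun N : ℕ => ∑ n ∈ s, 2 / (N : ℝ) ^ 2 * ∑ j ∈ Finset.range N,
        ∑ k ∈ Finset.range N, Real.sin (n * ((2 * π / N * k) - (2 * π / N * j))) *
          Bt ((2 * π / N * k) - (2 * π / N * j))) atTop (𝓝 (∑ n ∈ s, 16 / (π * (n : ℝ) ^ 3))) :=
      tendsto_finsetSum _ fun n hn => h7 n (hodd n hn)
    refine le_of_tendsto hlim ?_
    filter_upwards [eventually_ge_atTop (4 * m + 3)] with N hN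
    refine le_trans (le_abs_self _) (hcal N s ?_)
    intro n hn
    rw [hs, Finset.mem_image] at hn
    obtain ⟨k, hk, rfl⟩ := hn
    rw [Finset.mem_range] at hk
    omega
  apply ENNReal.ofReal_le_of_le_toReal
  rw [← tsum_mul_left]
  exact Real.tsum_le_of_sum_range_le (fun k => by positivity) hfin

end Pool.Agent.Y44.FA
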