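import Pool.Agent.Y522.FA.Stm

/-! # Project FA (helper522): job FA-Riem -/

set_option autoImplicit false

open Set Filter Topology Metric Function MeasureTheory
open scoped Real NNReal

noncomputable section

namespace Pool.Agent.Y44.FA

open Pool.Agent.Y522.FA

/-- Riemann sums of continuous functions -/
theorem riemann (f : ℝ → ℝ) (hf : Continuous f) (T : ℝ) (hT : 0 < T) :
    Tendsto (fun N : ℕ => T / N * ∑ m ∈ Finset.range N, f (T / N * m)) atTop (𝓝 (∫ x in (0 : ℝ)..T, f x)) := by
  rw [Metric.tendsto_atTop]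
  intro ε hε
  have hu : UniformContinuousOn f (Icc 0 T) :=
    isCompact_Icc.uniformContinuousOn_of_continuous hf.continuousOn
  rw [Metric.uniformContinuousOn_iff] at hu
  obtain ⟨δ, hδ, hu⟩ := hu (ε / (2 * T)) (by positivity)
  obtain ⟨N0, hN0⟩ := exists_nat_gt (T / δ)
  refine ⟨N0 + 1, fun N hN => ?_⟩
  have hNpos : 0 < (N : ℝ) := by
    have : 1 ≤ N := by omega
    exact_mod_cast this
  have hNδ : T / N < δ := by
    rw [div_lt_iff₀ hNpos]
    have h1 : (N0 : ℝ) < N := by exact_mod_cast (by omega : N0 < N)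
    have h2 : T / δ < N := lt_trans hN0 h1
    rw [div_lt_iff₀ hδ] at h2
    linarith
  have hTN : 0 < T / N := by positivity
  set a : ℕ → ℝ := fun m => T / N * m with ha
  have hsum : ∑ m ∈ Finset.range N, ∫ x in a m..a (m + 1), f x = ∫ x in (0 : ℝ)..T, f x := by
    rw [intervalIntegral.sum_integral_adjacent_intervals (fun k _ => hf.intervalIntegrable _ _)]
    congr 1
    · simp [ha]
    · simp only [ha]; field_simp
  rw [← hsum, Finset.mul_sum, Real.dist_eq, ← Finset.sum_sub_distrib]
  have hstep : ∀ m ∈ Finset.range N, |T / N * f (a m) - ∫ x in a m..a (m + 1), f x| ≤ ε / (2 * T) * (T / N) := by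
    intro m hm
    rw [Finset.mem_range] at hm
    have hle : a m ≤ a (m + 1) := by
      simp only [ha]; push_cast; nlinarith
    have hlen : a (m + 1) - a m = T / N := by
      simp only [ha]; push_cast; ring
    have h1 : T / N * f (a m) = ∫ _x in a m..a (m + 1), f (a m) := by
      rw [intervalIntegral.integral_const, hlen, smul_eq_mul]
    rw [h1, ← intervalIntegral.integral_sub (by simp) (hf.intervalIntegrable _ _)]
    have h2 := intervalIntegral.norm_integral_le_of_norm_le_const (a := a m) (b := a (m + 1))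
      (C := ε / (2 * T)) (f := fun x => f (a m) - f x) ?_
    · rw [hlen, abs_of_pos hTN] at h2
      exact h2
    · intro x hx
      rw [uIoc_of_le hle] at hx
      have hx0 : 0 ≤ a m := by simp only [ha]; positivity
      have hxT : a (m + 1) ≤ T := by
        simp only [ha]
        rw [div_mul_eq_mul_div, div_le_iff₀ hNpos]
        have : ((m + 1 : ℕ) : ℝ) ≤ N := by exact_mod_cast (by omega : m + 1 ≤ N)
        nlinarith
      have h3 := hu (a m) ⟨hx0, le_trans hle hxT⟩ x ⟨le_trans hx0 hx.1.le, le_trans hx.2 hxT⟩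
        (by
          rw [Real.dist_eq, abs_sub_comm, abs_of_pos (by linarith [hx.1])]
          have := hx.2
          linarith)
      rw [Real.dist_eq] at h3
      exact h3.le
  calc |∑ m ∈ Finset.range N, (T / N * f (a m) - ∫ x in a m..a (m + 1), f x)|
      ≤ ∑ m ∈ Finset.range N, |T / N * f (a m) - ∫ x in a m..a (m + 1), f x| :=
        Finset.abs_sum_le_sum_abs _ _
    _ ≤ ∑ m ∈ Finset.range N, ε / (2 * T) * (T / N) := Finset.sum_le_sum hstep
    _ = ε / 2 := by
        rw [Finset.sum_const, Finset.card_range, nsmul_eq_mul]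
        field_simp
    _ < ε := by linarith

/-- sums over a period -/
theorem sum_shift (N : ℕ) (H : ℤ → ℝ) (hH : ∀ m : ℤ, H (m + N) = H m) (j : ℕ) :
    ∑ k ∈ Finset.range N, H ((k : ℤ) - j) = ∑ k ∈ Finset.range N, H k := by
  induction j with
  | zero => simp
  | succ j ih =>
    rw [← ih]
    have h1 : ∑ k ∈ Finset.range (N + 1), H ((k : ℤ) - (j + 1 : ℕ)) =
        ∑ k ∈ Finset.range N, H ((k : ℤ) - j) + H (-((j : ℤ) + 1)) := by
      rw [Finset.sum_range_succ']
      congr 1
      · apply Finset.sum_congr rfl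
        intro k _
        congr 1
        push_cast; ring
    have h2 : ∑ k ∈ Finset.range (N + 1), H ((k : ℤ) - (j + 1 : ℕ)) =
        ∑ k ∈ Finset.range N, H ((k : ℤ) - (j + 1 : ℕ)) + H (-((j : ℤ) + 1)) := by
      rw [Finset.sum_range_succ]
      congr 1
      rw [← hH (-((j : ℤ) + 1)), show -((j : ℤ) + 1) + (N : ℤ) = (N : ℤ) - (j + 1 : ℕ) by push_cast; ring]
    linarith

/-- the explicit form of `Bt` on `[0, 2π]` -/
def G (x : ℝ) : ℝ := if x ≤ π then 2 * x * (π - x) else - (2 * (2 * π - x) * (x - π))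

theorem G_cont : Continuous G := by
  unfold G
  apply Continuous.if_le (by fun_prop) (by fun_prop) continuous_id continuous_const
  intro x hx
  simp only [id] at hx
  rw [hx]; ring

theorem Bt_eq (hB : StBt) {x : ℝ} (h0 : 0 ≤ x) (h1 : x ≤ 2 * π) : Bt x = G x := by
  obtain ⟨hB1, hB2, hB3, _⟩ := hB
  unfold G
  split
  · rename_i h
    exact hB1 x h0 h
  · rename_i h
    push Not at h
    have h2 : Bt x = Bt (x - 2 * π) := by
      rw [← hB3 (x - 2 * π)]; congr 1; ring
    have h3 : x - 2 * π = -(2 * π - x) := by ring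
    rw [h2, h3, hB2, hB1 _ (by linarith) (by linarith)]
    ring

theorem int_half (n : ℕ) (hn : Odd n) :
    ∫ x in (0 : ℝ)..π, Real.sin (n * x) * (2 * x * (π - x)) = 8 / (n : ℝ) ^ 3 := by
  have hn0 : (n : ℝ) ≠ 0 := by
    have : n ≠ 0 := by rintro rfl; exact absurd hn (by decide)
    exact_mod_cast this
  have hd : ∀ x ∈ uIcc (0 : ℝ) π, HasDerivAt (fun x : ℝ => 2 * (-(x * (π - x)) * Real.cos (n * x) / n +
      (π - 2 * x) * Real.sin (n * x) / n ^ 2 - 2 * Real.cos (n * x) / n ^ 3))
      (Real.sin (n * x) * (2 * x * (π - x))) x := by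
    intro x _
    have hx : HasDerivAt (fun x : ℝ => (n : ℝ) * x) n x := by
      simpa using (hasDerivAt_id x).const_mul (n : ℝ)
    have hc := hx.cos
    have hs := hx.sin
    have h1 : HasDerivAt (fun x : ℝ => -(x * (π - x))) (-(1 * (π - x) + x * (-1))) x :=
      ((hasDerivAt_id x).mul ((hasDerivAt_id x).const_sub π)).neg
    have h2 : HasDerivAt (fun x : ℝ => (π - 2 * x)) (-2) x := by
      have := ((hasDerivAt_id x).const_mul (2 : ℝ)).const_sub π
      simpa using this
    have h3 := (((h1.mul hc).div_const (n : ℝ)).add ((h2.mul hs).div_const ((n : ℝ) ^ 2))).sub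
      ((hc.const_mul (2 : ℝ)).div_const ((n : ℝ) ^ 3))
    have h4 := h3.const_mul (2 : ℝ)
    exact h4.congr_deriv (by field_simp; ring)
  rw [intervalIntegral.integral_eq_sub_of_hasDerivAt hd (by
    apply Continuous.intervalIntegrable; fun_prop)]
  have hcos : Real.cos (n * π) = -1 := by
    obtain ⟨k, hk⟩ := hn
    rw [hk]
    push_cast
    rw [show (2 * (k : ℝ) + 1) * π = π + k * (2 * π) by ring, Real.cos_add_nat_mul_two_pi, Real.cos_pi]
  have hsin : Real.sin (n * π) = 0 := Real.sin_nat_mul_pi n
  rw [hcos, hsin]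
  simp only [mul_zero, Real.cos_zero, Real.sin_zero]
  field_simp
  ring

theorem int_full (n : ℕ) (hn : Odd n) :
    ∫ x in (0 : ℝ)..(2 * π), Real.sin (n * x) * G x = 16 / (n : ℝ) ^ 3 := by
  have hc : Continuous fun x : ℝ => Real.sin (n * x) * G x := by
    have := G_cont
    fun_prop
  rw [← intervalIntegral.integral_add_adjacent_intervals (b := π) (hc.intervalIntegrable _ _)
    (hc.intervalIntegrable _ _)]
  have h1 : ∫ x in (0 : ℝ)..π, Real.sin (n * x) * G x =
      ∫ x in (0 : ℝ)..π, Real.sin (n * x) * (2 * x * (π - x)) := by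
    apply intervalIntegral.integral_congr
    intro x hx
    rw [uIcc_of_le Real.pi_pos.le] at hx
    simp only [G, if_pos hx.2]
  have h2 : ∫ x in π..(2 * π), Real.sin (n * x) * G x =
      ∫ x in π..(2 * π), (fun y => Real.sin (n * y) * (2 * y * (π - y))) (2 * π - x) := by
    apply intervalIntegral.integral_congr
    intro x hx
    have hpi := Real.pi_pos
    rw [uIcc_of_le (by linarith)] at hx
    simp only
    have hs : Real.sin (n * (2 * π - x)) = - Real.sin (n * x) := by
      rw [show (n : ℝ) * (2 * π - x) = n * (2 * π) - n * x by ring, Real.sin_nat_mul_two_pi_sub]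
    rw [hs]
    unfold G
    split
    · rename_i h
      have : x = π := le_antisymm h hx.1
      rw [this]; ring
    · ring
  rw [h1, h2, intervalIntegral.integral_comp_sub_left
    (fun y => Real.sin (n * y) * (2 * y * (π - y))) (2 * π)]
  rw [show 2 * π - 2 * π = 0 by ring, show 2 * π - π = π by ring, int_half n hn]
  ring

theorem stRiem (hB : StBt) : StRiem := by
  intro n hn
  have hc : Continuous fun x : ℝ => Real.sin (n * x) * G x := by
    have := G_cont
    fun_prop
  have hpi := Real.pi_pos
  have h1 := riemann (fun x : ℝ => Real.sin (n * x) * G x) hc (2 * π) (by positivity)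
  rw [int_full n hn] at h1
  have h2 := h1.const_mul (1 / π)
  have h3 : 1 / π * (16 / (n : ℝ) ^ 3) = 16 / (π * n ^ 3) := by
    rw [div_mul_div_comm, one_mul]
  rw [h3] at h2
  refine h2.congr' ?_
  filter_upwards [eventually_ge_atTop 1] with N hN
  have hN0 : (N : ℝ) ≠ 0 := by
    have : N ≠ 0 := by omega
    exact_mod_cast this
  set H : ℤ → ℝ := fun m => Real.sin (n * (2 * π / N * m)) * Bt (2 * π / N * m) with hH
  have hper : ∀ m : ℤ, H (m + N) = H m := by
    intro m
    simp only [hH]
    push_cast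
    rw [show 2 * π / (N : ℝ) * (m + N) = 2 * π / N * m + 2 * π by field_simp, hB.2.2.1,
      show (n : ℝ) * (2 * π / N * m + 2 * π) = n * (2 * π / N * m) + n * (2 * π) by ring,
      Real.sin_add_nat_mul_two_pi]
  have hinner : ∀ j ∈ Finset.range N, ∑ k ∈ Finset.range N,
      Real.sin (n * ((2 * π / N * k) - (2 * π / N * j))) * Bt ((2 * π / N * k) - (2 * π / N * j)) =
      ∑ k ∈ Finset.range N, H k := by
    intro j _
    rw [← sum_shift N H hper j]
    apply Finset.sum_congr rfl
    intro k _
    simp only [hH]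
    push_cast
    rw [show 2 * π / (N : ℝ) * k - 2 * π / N * j = 2 * π / N * (k - j) by ring]
  rw [Finset.sum_congr rfl hinner, Finset.sum_const, Finset.card_range, nsmul_eq_mul]
  have hG : ∑ k ∈ Finset.range N, H k = ∑ m ∈ Finset.range N, Real.sin (n * (2 * π / N * m)) *
      G (2 * π / N * m) := by
    apply Finset.sum_congr rfl
    intro m hm
    rw [Finset.mem_range] at hm
    simp only [hH]
    push_cast
    have hNp : 0 < (N : ℝ) := by exact_mod_cast (by omega : 0 < N)
    rw [Bt_eq hB (by positivity) (by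
      rw [div_mul_eq_mul_div, div_le_iff₀ hNp]
      have : (m : ℝ) ≤ N := by exact_mod_cast hm.le
      nlinarith)]
  rw [hG]
  field_simp

end Pool.Agent.Y44.FA
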